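import Pool.Agent.MP_fbbd83_al.Lc.Two

open Pool.Agent.MP_fbbd83_al

theorem Pool.Agent.Results.MP_fbbd83_al.BoundedRuns.result (ω : ℕ → Fin 3) (R : ℕ)
    (h : ∀ k, ∃ m < R, ω (k + m) ≠ ω (k + m + 1)) :
    ∃ C : ℝ, ∀ᶠ n : ℕ in Filter.atTop, (growth (gens ω) n : ℝ) ≤
      Real.exp (C * n * Real.log (Real.log n) / Real.log n) :=
  Lc.runs_upper h
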