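import Pool.Agent.MP_fbbd83_al.Mg.Lc_UpLoc

open Pool.Agent.MP_fbbd83_al

theorem Pool.Agent.Results.MP_fbbd83_al.LocalLoss.result :
    ∃ C : ℕ, 0 < C ∧ ∀ ω : ℕ → Fin 3, (¬ ∃ k i, ∀ m ≥ k, ω m = i) → ∀ n k s : ℕ,
      lenSum ω k ≤ n → n < lenSum ω (k + 1) →
      ∑ i ∈ Finset.range (k + 1),
        ((2 ^ (k - i) * lenSum ω i : ℝ) / lenSum ω k) ^ (1 / 260 : ℝ) ≤ s →
      model ω n ≤ growth (gens ω) (C * n * s ^ 13) ∧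
        growth (gens ω) n ≤ model ω (C * n * (Nat.log 2 s + 1) ^ 2) :=
  ⟨84000 * 3 * 27 * (3 ^ 235 * (2 ^ 27) ^ 12), by positivity, fun ω h _ k _ h1 h2 hs =>
    ⟨Lc.model_le (Pl.nc_of ω h) le_rfl h1 h2 ((Lc.sum_eq k).trans_le hs),
      Lc.le_model (by norm_num) h1 h2 ((Lc.sum_eq k).trans_le hs)⟩⟩
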