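import Pool.Agent.MP_fbbd83_al.St.Up

open Pool.Agent.MP_fbbd83_al

theorem Pool.Agent.Results.MP_fbbd83_al.StretchedClass.result
    (j : Fin 3) (r : ℕ) (ω : ℕ → Fin 3) (h₁ : ∀ n, ∃ m, n ≤ m ∧ ω m ≠ j)
    (h₂ : ∀ n, ω n ≠ j → ∀ i, ∃ k, n ≤ k + r ∧ k ≤ n + r ∧ ω k = i) :
    GrowthEquiv (growth (gens ω)) (model ω) :=
  ⟨St.upper ω (St.Near.ratio h₂), St.lower h₂ h₁⟩
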