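import Pool.Agent.MP_fbbd83_al.Lc.Two

open Pool.Agent.MP_fbbd83_al

theorem Pool.Agent.Results.MP_fbbd83_al.TwoSymbols.result (ω : ℕ → Fin 3)
    (h₁ : ∃ j k, ∀ m ≥ k, ω m ≠ j) (h₂ : ¬ ∃ k i, ∀ m ≥ k, ω m = i) :
    ∃ c : ℝ, 0 < c ∧ ∀ᶠ n : ℕ in Filter.atTop,
      Real.exp (c * n / Real.log n ^ 2) ≤ growth (gens ω) n :=
  h₁.elim fun _ h => h.elim fun _ hj => Lc.two_lower (Pl.nc_of ω h₂) hj
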